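import Pool.Agent.Helper704.RW.Base

/-!
One level of the wavelet system whose Fourier transform is the indicator of a subset of `(-1, 1)`.
-/

set_option autoImplicit false

open MeasureTheory Filter Topology Set
open scoped ComplexConjugate InnerProductSpace ENNReal FourierTransform
open Pool.Agent.Helper704 Pool.Agent.Helper704.RW

namespace Pool.Agent.Q167.WV

/-- the part of `g` seen at level `j` -/
noncomputable def cut (S : Set ℝ) (j : ℤ) (g : ℝ → ℂ) (ξ : ℝ) : ℂ := S.indicator 1 ((2 : ℝ) ^ (-j) * ξ) * g ξ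

theorem two_zpow_pos (j : ℤ) : (0 : ℝ) < 2 ^ j := by positivity

theorem measurable_scale (j : ℤ) : Measurable fun ξ : ℝ => (2 : ℝ) ^ (-j) * ξ := by fun_prop

theorem norm_ind_le (S : Set ℝ) (x : ℝ) : ‖(S.indicator 1 x : ℂ)‖ ≤ 1 := by
  by_cases h : x ∈ S
  · rw [indicator_of_mem h]; simp
  · rw [indicator_of_notMem h]; simp

theorem measurable_ind {S : Set ℝ} (hS : MeasurableSet S) (j : ℤ) :
    Measurable fun ξ : ℝ => (S.indicator 1 ((2 : ℝ) ^ (-j) * ξ) : ℂ) :=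
  (measurable_one.indicator hS).comp (measurable_scale j)

theorem memLp_cut {S : Set ℝ} (hS : MeasurableSet S) (j : ℤ) {g : ℝ → ℂ} (hg : MemLp g 2 volume) :
    MemLp (cut S j g) 2 volume := by
  refine hg.of_le_mul (c := 1) ((measurable_ind hS j).aestronglyMeasurable.mul hg.1) ?_
  filter_upwards with ξ
  rw [cut, norm_mul]
  exact mul_le_mul_of_nonneg_right (norm_ind_le S _) (norm_nonneg _)

theorem cut_eq_zero {S : Set ℝ} (hS1 : S ⊆ Ioo (-1) 1) (j : ℤ) (g : ℝ → ℂ) {ξ : ℝ}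
    (hξ : ξ ∉ Ioo (-(2 : ℝ) ^ j) (2 ^ j)) : cut S j g ξ = 0 := by
  rw [cut, indicator_of_notMem, zero_mul]
  intro h
  apply hξ
  obtain ⟨h1, h2⟩ := hS1 h
  have h3 := two_zpow_pos j
  rw [zpow_neg, inv_mul_eq_div] at h1 h2
  rw [lt_div_iff₀ h3] at h1
  rw [div_lt_iff₀ h3] at h2
  constructor <;> linarith

theorem memLp_shift {g : ℝ → ℂ} (hg : MemLp g 2 volume) (a : ℝ) : MemLp (fun ξ => g (ξ - a)) 2 volume :=
  hg.comp_measurePreserving (measurePreserving_sub_right volume a)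

/-- the periodisation -/
noncomputable def per (S : Set ℝ) (j : ℤ) (g : ℝ → ℂ) (ξ : ℝ) : ℂ := cut S j g ξ + cut S j g (ξ - 2 ^ j)

theorem memLp_per {S : Set ℝ} (hS : MeasurableSet S) (j : ℤ) {g : ℝ → ℂ} (hg : MemLp g 2 volume) :
    MemLp (per S j g) 2 volume :=
  (memLp_cut hS j hg).add (memLp_shift (memLp_cut hS j hg) _)

theorem integral_cut {S : Set ℝ} (hS : MeasurableSet S) (hS1 : S ⊆ Ioo (-1) 1) (j : ℤ) {g : ℝ → ℂ}
    (hg : MemLp g 2 volume) (m : ℝ → ℂ) (hm : Continuous m) (hmb : ∀ x, ‖m x‖ ≤ 1)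
    (hmp : ∀ x, m (x - 2 ^ j) = m x) :
    ∫ ξ, m ξ * cut S j g ξ = ∫ ξ in (0 : ℝ)..(2 ^ j), m ξ * per S j g ξ := by
  have hL := two_zpow_pos j
  have hc := memLp_cut hS j hg
  have hint : IntegrableOn (fun ξ => m ξ * cut S j g ξ) (Ioc (-(2 : ℝ) ^ j) (2 ^ j)) := by
    have h1 : IntegrableOn (cut S j g) (Ioc (-(2 : ℝ) ^ j) (2 ^ j)) :=
      (hc.restrict _).integrable (by norm_num)
    refine h1.bdd_mul (c := 1) hm.aestronglyMeasurable ?_
    filter_upwards with x using hmb x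
  have h0 : ∫ ξ, m ξ * cut S j g ξ = ∫ ξ in Ioc (-(2 : ℝ) ^ j) (2 ^ j), m ξ * cut S j g ξ := by
    refine (setIntegral_eq_integral_of_forall_compl_eq_zero fun ξ hξ => ?_).symm
    rw [cut_eq_zero hS1 j g (fun h => hξ (Ioo_subset_Ioc_self h)), mul_zero]
  have hi1 : IntervalIntegrable (fun ξ => m ξ * cut S j g ξ) volume (-(2 : ℝ) ^ j) 0 :=
    (intervalIntegrable_iff_integrableOn_Ioc_of_le (by linarith)).2
      (hint.mono_set (Ioc_subset_Ioc_right hL.le))
  have hi2 : IntervalIntegrable (fun ξ => m ξ * cut S j g ξ) volume 0 (2 ^ j) :=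
    (intervalIntegrable_iff_integrableOn_Ioc_of_le hL.le).2
      (hint.mono_set (Ioc_subset_Ioc_left (by linarith)))
  rw [h0, ← intervalIntegral.integral_of_le (by linarith), ← intervalIntegral.integral_add_adjacent_intervals hi1 hi2]
  have h1 : ∫ ξ in (-(2 : ℝ) ^ j)..0, m ξ * cut S j g ξ = ∫ ξ in (0 : ℝ)..(2 ^ j), m ξ * cut S j g (ξ - 2 ^ j) := by
    have := intervalIntegral.integral_comp_sub_right (a := 0) (b := (2 : ℝ) ^ j) (fun ξ => m ξ * cut S j g ξ) (2 ^ j)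
    rw [zero_sub, sub_self] at this
    rw [← this]
    refine intervalIntegral.integral_congr fun ξ _ => ?_
    rw [hmp]
  have hi3 : IntervalIntegrable (fun ξ => m ξ * cut S j g (ξ - 2 ^ j)) volume 0 (2 ^ j) := by
    have := hi1.comp_sub_right (2 ^ j)
    rw [neg_add_cancel, zero_add] at this
    refine this.congr (fun ξ _ => ?_)
    simp only [hmp]
  rw [h1, ← intervalIntegral.integral_add hi3 hi2]
  refine intervalIntegral.integral_congr fun ξ _ => ?_
  simp only [per]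
  ring

theorem level {S : Set ℝ} (hS : MeasurableSet S) (hS1 : S ⊆ Ioo (-1) 1) (j : ℤ) {g : ℝ → ℂ}
    (hg : MemLp g 2 volume) :
    ∑' k : ℤ, ‖∫ ξ, conj (fq (j, k) (S.indicator 1) ξ) * g ξ‖ₑ ^ 2 =
      ∫⁻ ξ in Ioc 0 ((2 : ℝ) ^ j), ‖per S j g ξ‖ₑ ^ 2 := by
  have hL := two_zpow_pos j
  set L : ℝ := (2 : ℝ) ^ j with hLdef
  have hP : MemLp (per S j g) 2 (volume.restrict (Ioc 0 L)) := (memLp_per hS j hg).restrict _
  have hpars := hasSum_sq_fourierCoeffOn hL hP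
  have hcoef : ∀ k : ℤ, ∫ ξ, conj (fq (j, k) (S.indicator 1) ξ) * g ξ =
      ((Real.sqrt L : ℝ) : ℂ) * fourierCoeffOn hL (per S j g) (-k) := by
    intro k
    have e1 : ∀ ξ, conj (fq (j, k) (S.indicator 1) ξ) * g ξ =
        ((Real.sqrt ((2 : ℝ) ^ (-j)) : ℝ) : ℂ) * (conj (ex k ((2 : ℝ) ^ (-j) * ξ)) * cut S j g ξ) := by
      intro ξ
      rw [fq, cut]
      simp only [map_mul, Complex.conj_ofReal]
      have : conj (S.indicator 1 ((2 : ℝ) ^ (-j) * ξ) : ℂ) = S.indicator 1 ((2 : ℝ) ^ (-j) * ξ) := by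
        by_cases h : (2 : ℝ) ^ (-j) * ξ ∈ S
        · rw [indicator_of_mem h]; simp
        · rw [indicator_of_notMem h]; simp
      rw [this]; ring
    simp_rw [e1]
    rw [integral_const_mul, integral_cut hS hS1 j hg (fun ξ => conj (ex k ((2 : ℝ) ^ (-j) * ξ)))
      (by unfold ex; fun_prop) (fun x => by rw [Complex.norm_conj, norm_ex]) ?_]
    · rw [fourierCoeffOn_eq_integral]
      have e2 : ∀ ξ : ℝ, (fourier (-(-k)) (ξ : AddCircle (L - 0)) : ℂ) = conj (ex k ((2 : ℝ) ^ (-j) * ξ)) := by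
        intro ξ
        rw [fourier_coe_apply, ex, ← Complex.exp_conj]
        congr 1
        simp only [map_mul, Complex.conj_I, Complex.conj_ofReal]
        rw [zpow_neg, ← hLdef]
        have : (L : ℂ) ≠ 0 := by exact_mod_cast hL.ne'
        push_cast
        rw [sub_zero]
        field_simp
      simp_rw [e2, smul_eq_mul]
      rw [sub_zero, Complex.real_smul, ← mul_assoc]
      congr 1
      rw [zpow_neg, ← hLdef, Real.sqrt_inv]
      have h3 : Real.sqrt L * Real.sqrt L = L := Real.mul_self_sqrt hL.le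
      have h4 : Real.sqrt L ≠ 0 := (Real.sqrt_pos.2 hL).ne'
      rw [← Complex.ofReal_mul]
      congr 1
      rw [mul_one_div, eq_div_iff hL.ne', inv_mul_eq_div, div_eq_iff h4]
      exact h3.symm
    · intro x
      congr 1
      have : (2 : ℝ) ^ (-j) * (x - L) = (2 : ℝ) ^ (-j) * x + ((-1 : ℤ) : ℝ) := by
        rw [mul_sub, zpow_neg, ← hLdef, inv_mul_cancel₀ hL.ne']
        push_cast; ring
      rw [this, ex_add_int]
  simp_rw [hcoef]
  have h1 : ∀ k : ℤ, ‖((Real.sqrt L : ℝ) : ℂ) * fourierCoeffOn hL (per S j g) (-k)‖ₑ ^ 2 =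
      ENNReal.ofReal (L * ‖fourierCoeffOn hL (per S j g) (-k)‖ ^ 2) := by
    intro k
    rw [← ofReal_norm, ← ENNReal.ofReal_pow (norm_nonneg _), norm_mul, mul_pow, Complex.norm_real,
      Real.norm_of_nonneg (Real.sqrt_nonneg _), Real.sq_sqrt hL.le]
  simp_rw [h1]
  have h2 : HasSum (fun k : ℤ => L * ‖fourierCoeffOn hL (per S j g) (-k)‖ ^ 2)
      (L * ((L - 0)⁻¹ • ∫ x in (0 : ℝ)..L, ‖per S j g x‖ ^ 2)) := by
    refine HasSum.mul_left L ?_
    exact ((Equiv.neg ℤ).hasSum_iff (f := fun i => ‖fourierCoeffOn hL (per S j g) i‖ ^ 2)).2 hpars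
  rw [← ENNReal.ofReal_tsum_of_nonneg (fun k => by positivity) h2.summable, h2.tsum_eq, sub_zero, smul_eq_mul,
    mul_inv_cancel_left₀ hL.ne', intervalIntegral.integral_of_le hL.le]
  have hi : Integrable (fun x => ‖per S j g x‖ ^ 2) (volume.restrict (Ioc 0 L)) := hP.integrable_norm_pow two_ne_zero
  rw [ofReal_integral_eq_lintegral_ofReal hi (Eventually.of_forall fun x => sq_nonneg _)]
  refine lintegral_congr fun x => ?_
  rw [ENNReal.ofReal_pow (norm_nonneg _), ofReal_norm]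

/-- the inner product with a wavelet -/
theorem inner_Dh {S : Set ℝ} (hφ : MemLp (S.indicator (1 : ℝ → ℂ)) 2 volume) (p : ℤ × ℤ) (u : HH) :
    ⟪Dh p (hφ.toLp _), u⟫_ℂ = ∫ ξ, conj (fq p (S.indicator 1) ξ) * u ξ := by
  rw [Dh_toLp, L2.inner_def]
  refine integral_congr_ae ?_
  filter_upwards [(memLp_fq p hφ).coeFn_toLp] with ξ hξ
  rw [hξ, RCLike.inner_apply, mul_comm]

end Pool.Agent.Q167.WV
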