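import Pool.Agent.Q167.WV.Shell

/-!
The frame bounds for the wavelet whose Fourier transform is the indicator of `(-1,-b) ∪ (b,1)`.
-/

set_option autoImplicit false

open MeasureTheory Filter Topology Set
open scoped ComplexConjugate InnerProductSpace ENNReal FourierTransform
open Pool.Agent.Helper704 Pool.Agent.Helper704.RW

namespace Pool.Agent.Q167.WV

/-- the frequency support -/
def Om (b : ℝ) : Set ℝ := Ioo (-1) (-b) ∪ Ioo b 1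

theorem measurableSet_Om (b : ℝ) : MeasurableSet (Om b) := measurableSet_Ioo.union measurableSet_Ioo

theorem Om_subset {b : ℝ} (hb : 0 < b) : Om b ⊆ Ioo (-1) 1 := by
  rintro x (h | h)
  · exact ⟨h.1, by linarith [h.2, h.1]⟩
  · exact ⟨by linarith [h.1], h.2⟩

theorem per_both {b : ℝ} (hb : 0 < b) (j : ℤ) (g : ℝ → ℂ) {ξ : ℝ} (h1 : b * 2 ^ j < ξ)
    (h2 : ξ < 2 ^ j - b * 2 ^ j) : per (Om b) j g ξ = g ξ + g (ξ - 2 ^ j) := by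
  have hL := two_zpow_pos j
  have hbL : 0 < b * 2 ^ j := mul_pos hb hL
  have e1 : (2 : ℝ) ^ (-j) * ξ ∈ Om b := by
    right
    rw [zpow_neg, inv_mul_eq_div]
    exact ⟨by rw [lt_div_iff₀ hL]; exact h1, by rw [div_lt_iff₀ hL]; linarith⟩
  have e2 : (2 : ℝ) ^ (-j) * (ξ - 2 ^ j) ∈ Om b := by
    left
    rw [zpow_neg, inv_mul_eq_div]
    exact ⟨by rw [lt_div_iff₀ hL]; linarith, by rw [div_lt_iff₀ hL]; linarith⟩
  rw [per, cut, cut, indicator_of_mem e1, indicator_of_mem e2]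
  simp

/-- both shells are available -/
def n2 (b x : ℝ) : Prop := 8 * b * 2 ^ sh x < |x|

theorem measurableSet_n2 (b : ℝ) : MeasurableSet {x | n2 b x} := by
  have : Measurable fun x => (2 : ℝ) ^ (sh x) :=
    (measurable_from_top (f := fun n : ℤ => (2 : ℝ) ^ n)).comp measurable_sh
  exact measurableSet_lt (this.const_mul _) measurable_abs

theorem edges_le {b : ℝ} (hb : 0 < b) (hb' : b ≤ 1 / 6) (g : ℝ → ℂ) :
    (∫⁻ x, ‖g x + g (c1 x)‖ₑ ^ 2) + ∫⁻ x, {x | n2 b x}.indicator (fun x => ‖g x + g (c2 x)‖ₑ ^ 2) x ≤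
      ∑' j : ℤ, ∫⁻ ξ in Ioc 0 ((2 : ℝ) ^ j), ‖per (Om b) j g ξ‖ₑ ^ 2 := by
  have e1 : ∫⁻ x, ‖g x + g (c1 x)‖ₑ ^ 2 =
      ∑' j : ℤ, (∫⁻ ξ in Ioo ((2 : ℝ) ^ j / 4) (2 ^ j / 2), ‖g ξ + g (ξ - 2 ^ j)‖ₑ ^ 2) +
      ∑' j : ℤ, ∫⁻ ξ in Ioo ((2 : ℝ) ^ j / 2) (3 * 2 ^ j / 4), ‖g ξ + g (ξ - 2 ^ j)‖ₑ ^ 2 := by
    rw [shells]
    congr 1
    · rw [← (Equiv.addRight (2 : ℤ)).tsum_eq
        (fun j : ℤ => ∫⁻ ξ in Ioo ((2 : ℝ) ^ j / 4) (2 ^ j / 2), ‖g ξ + g (ξ - 2 ^ j)‖ₑ ^ 2)]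
      refine tsum_congr fun i => ?_
      have hI : Ioo ((2 : ℝ) ^ ((Equiv.addRight (2 : ℤ)) i) / 4) (2 ^ ((Equiv.addRight (2 : ℤ)) i) / 2) =
          Ioo ((2 : ℝ) ^ i) (2 ^ (i + 1)) := by
        rw [Equiv.coe_addRight, zp1, zp2]
        congr 1 <;> ring
      rw [hI]
      exact setLIntegral_congr_fun measurableSet_Ioo fun x hx => by
        rw [c1_pos hx, Equiv.coe_addRight]
    · rw [← (Equiv.addRight (2 : ℤ)).tsum_eq
        (fun j : ℤ => ∫⁻ ξ in Ioo ((2 : ℝ) ^ j / 2) (3 * 2 ^ j / 4), ‖g ξ + g (ξ - 2 ^ j)‖ₑ ^ 2)]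
      refine tsum_congr fun i => ?_
      have hI : Ioo ((2 : ℝ) ^ ((Equiv.addRight (2 : ℤ)) i) / 2) (3 * 2 ^ ((Equiv.addRight (2 : ℤ)) i) / 4) =
          Ioo (-(2 : ℝ) ^ (i + 1) + 2 ^ (i + 2)) (-2 ^ i + 2 ^ (i + 2)) := by
        rw [Equiv.coe_addRight, zp1, zp2]
        congr 1 <;> ring
      rw [hI, ← shift_Ioo]
      refine setLIntegral_congr_fun measurableSet_Ioo fun x hx => ?_
      rw [c1_neg hx, Equiv.coe_addRight, add_sub_cancel_right, add_comm]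
  have e2 : ∫⁻ x, {x | n2 b x}.indicator (fun x => ‖g x + g (c2 x)‖ₑ ^ 2) x =
      ∑' j : ℤ, (∫⁻ ξ in Ioo ((2 : ℝ) ^ j / 8) (2 ^ j / 4),
        {ξ | b * (2 : ℝ) ^ j < ξ}.indicator (fun ξ => ‖g ξ + g (ξ - 2 ^ j)‖ₑ ^ 2) ξ) +
      ∑' j : ℤ, ∫⁻ ξ in Ioo (3 * (2 : ℝ) ^ j / 4) (7 * 2 ^ j / 8),
        {ξ | ξ < (2 : ℝ) ^ j - b * 2 ^ j}.indicator (fun ξ => ‖g ξ + g (ξ - 2 ^ j)‖ₑ ^ 2) ξ := by
    rw [shells]
    congr 1
    · rw [← (Equiv.addRight (3 : ℤ)).tsum_eq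
        (fun j : ℤ => ∫⁻ ξ in Ioo ((2 : ℝ) ^ j / 8) (2 ^ j / 4),
        {ξ | b * (2 : ℝ) ^ j < ξ}.indicator (fun ξ => ‖g ξ + g (ξ - 2 ^ j)‖ₑ ^ 2) ξ)]
      refine tsum_congr fun i => ?_
      have hI : Ioo ((2 : ℝ) ^ ((Equiv.addRight (3 : ℤ)) i) / 8) (2 ^ ((Equiv.addRight (3 : ℤ)) i) / 4) =
          Ioo ((2 : ℝ) ^ i) (2 ^ (i + 1)) := by
        rw [Equiv.coe_addRight, zp1, zp3]
        congr 1 <;> ring
      rw [hI]
      refine setLIntegral_congr_fun measurableSet_Ioo fun x hx => ?_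
      have hx0 : 0 < x := (two_zpow_pos i).trans hx.1
      have hiff : x ∈ {x | n2 b x} ↔ x ∈ {ξ | b * (2 : ℝ) ^ ((Equiv.addRight (3 : ℤ)) i) < ξ} := by
        rw [Set.mem_ofPred_eq, Set.mem_ofPred_eq, n2, sh_of_pos hx, abs_of_pos hx0, Equiv.coe_addRight, zp3]
        constructor <;> intro h <;> linarith
      by_cases h : x ∈ {x | n2 b x}
      · rw [indicator_of_mem h, indicator_of_mem (hiff.1 h), c2_pos hx, Equiv.coe_addRight]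
      · rw [indicator_of_notMem h, indicator_of_notMem (fun h' => h (hiff.2 h'))]
    · rw [← (Equiv.addRight (3 : ℤ)).tsum_eq
        (fun j : ℤ => ∫⁻ ξ in Ioo (3 * (2 : ℝ) ^ j / 4) (7 * 2 ^ j / 8),
        {ξ | ξ < (2 : ℝ) ^ j - b * 2 ^ j}.indicator (fun ξ => ‖g ξ + g (ξ - 2 ^ j)‖ₑ ^ 2) ξ)]
      refine tsum_congr fun i => ?_
      have hI : Ioo (3 * (2 : ℝ) ^ ((Equiv.addRight (3 : ℤ)) i) / 4) (7 * 2 ^ ((Equiv.addRight (3 : ℤ)) i) / 8) =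
          Ioo (-(2 : ℝ) ^ (i + 1) + 2 ^ (i + 3)) (-2 ^ i + 2 ^ (i + 3)) := by
        rw [Equiv.coe_addRight, zp1, zp3]
        congr 1 <;> ring
      rw [hI, ← shift_Ioo]
      refine setLIntegral_congr_fun measurableSet_Ioo fun x hx => ?_
      have hx0 : x < 0 := by
        have := two_zpow_pos i
        linarith [hx.2]
      have hiff : x ∈ {x | n2 b x} ↔ x + 2 ^ (i + 3) ∈
          {ξ | ξ < (2 : ℝ) ^ ((Equiv.addRight (3 : ℤ)) i) - b * 2 ^ ((Equiv.addRight (3 : ℤ)) i)} := by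
        rw [Set.mem_ofPred_eq, Set.mem_ofPred_eq, n2, sh_of_neg hx, abs_of_neg hx0, Equiv.coe_addRight, zp3]
        constructor <;> intro h <;> linarith
      by_cases h : x ∈ {x | n2 b x}
      · rw [indicator_of_mem h, indicator_of_mem (hiff.1 h), c2_neg hx, Equiv.coe_addRight,
          add_sub_cancel_right, add_comm]
      · rw [indicator_of_notMem h, indicator_of_notMem (fun h' => h (hiff.2 h'))]
  rw [e1, e2, ← ENNReal.tsum_add, ← ENNReal.tsum_add, ← ENNReal.tsum_add]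
  refine ENNReal.tsum_le_tsum fun j => ?_
  have hL := two_zpow_pos j
  set L : ℝ := (2 : ℝ) ^ j with hLdef
  have hbL : 0 < b * L := mul_pos hb hL
  have hbL' : b * L ≤ L / 6 := by nlinarith
  have f1 : ∫⁻ ξ in Ioo (L / 4) (L / 2), ‖g ξ + g (ξ - L)‖ₑ ^ 2 = ∫⁻ ξ in Ioo (L / 4) (L / 2), ‖per (Om b) j g ξ‖ₑ ^ 2 :=
    setLIntegral_congr_fun measurableSet_Ioo fun x hx => by
      rw [per_both hb j g (by rw [← hLdef]; linarith [hx.1]) (by rw [← hLdef]; linarith [hx.2])]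
  have f2 : ∫⁻ ξ in Ioo (L / 2) (3 * L / 4), ‖g ξ + g (ξ - L)‖ₑ ^ 2 = ∫⁻ ξ in Ioo (L / 2) (3 * L / 4), ‖per (Om b) j g ξ‖ₑ ^ 2 :=
    setLIntegral_congr_fun measurableSet_Ioo fun x hx => by
      rw [per_both hb j g (by rw [← hLdef]; linarith [hx.1]) (by rw [← hLdef]; linarith [hx.2])]
  have f3 : ∫⁻ ξ in Ioo (L / 8) (L / 4), {ξ | b * L < ξ}.indicator (fun ξ => ‖g ξ + g (ξ - L)‖ₑ ^ 2) ξ ≤
      ∫⁻ ξ in Ioo (L / 8) (L / 4), ‖per (Om b) j g ξ‖ₑ ^ 2 := by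
    refine setLIntegral_mono' measurableSet_Ioo fun x hx => ?_
    by_cases h : x ∈ {ξ | b * L < ξ}
    · rw [indicator_of_mem h, per_both hb j g h (by rw [← hLdef]; linarith [hx.2])]
    · rw [indicator_of_notMem h]
      exact zero_le
  have f4 : ∫⁻ ξ in Ioo (3 * L / 4) (7 * L / 8), {ξ | ξ < L - b * L}.indicator (fun ξ => ‖g ξ + g (ξ - L)‖ₑ ^ 2) ξ ≤
      ∫⁻ ξ in Ioo (3 * L / 4) (7 * L / 8), ‖per (Om b) j g ξ‖ₑ ^ 2 := by
    refine setLIntegral_mono' measurableSet_Ioo fun x hx => ?_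
    by_cases h : x ∈ {ξ | ξ < L - b * L}
    · rw [indicator_of_mem h, per_both hb j g (by rw [← hLdef]; linarith [hx.1]) h]
    · rw [indicator_of_notMem h]
      exact zero_le
  rw [f1, f2]
  have s12 := two_le (fun ξ => ‖per (Om b) j g ξ‖ₑ ^ 2) (s := Ioo (L / 4) (L / 2)) (t := Ioo (L / 2) (3 * L / 4))
    (u := Ioo (L / 4) (3 * L / 4)) measurableSet_Ioo
    (by rw [disjoint_left]; intro x h1 h2; linarith [h1.2, h2.1])
    (fun x hx => ⟨hx.1, by linarith [hx.2]⟩) (fun x hx => ⟨by linarith [hx.1], hx.2⟩)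
  have s34 := two_le (fun ξ => ‖per (Om b) j g ξ‖ₑ ^ 2) (s := Ioo (L / 8) (L / 4)) (t := Ioo (3 * L / 4) (7 * L / 8))
    (u := Ioc 0 L \ Ioo (L / 4) (3 * L / 4)) measurableSet_Ioo
    (by rw [disjoint_left]; intro x h1 h2; linarith [h1.2, h2.1])
    (fun x hx => ⟨⟨by linarith [hx.1], by linarith [hx.2]⟩, fun h => by linarith [hx.2, h.1]⟩)
    (fun x hx => ⟨⟨by linarith [hx.1], by linarith [hx.2]⟩, fun h => by linarith [hx.1, h.2]⟩)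
  have s := two_le (fun ξ => ‖per (Om b) j g ξ‖ₑ ^ 2) (s := Ioo (L / 4) (3 * L / 4))
    (t := Ioc 0 L \ Ioo (L / 4) (3 * L / 4)) (u := Ioc 0 L) (measurableSet_Ioc.diff measurableSet_Ioo)
    disjoint_sdiff_self_right (fun x hx => ⟨by linarith [hx.1], by linarith [hx.2]⟩) sdiff_subset
  exact (add_le_add s12 ((add_le_add f3 f4).trans s34)).trans s

theorem ofReal_sq_norm (z : ℂ) : ‖z‖ₑ ^ 2 = ENNReal.ofReal (‖z‖ ^ 2) := by
  rw [ENNReal.ofReal_pow (norm_nonneg _), ofReal_norm]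

open Classical in
/-- the averaging operator -/
noncomputable def Mop (b : ℝ) (u : ℝ → ℂ) (x : ℝ) : ℂ :=
  if n2 b x then -(u (c1 x) + u (c2 x)) / 2 else -u (c1 x)

theorem measurable_Mop (b : ℝ) {u : ℝ → ℂ} (hu : Measurable u) : Measurable (Mop b u) := by
  classical
  exact Measurable.ite (measurableSet_n2 b)
    (((hu.comp measurable_c1).add (hu.comp measurable_c2)).neg.div_const 2) (hu.comp measurable_c1).neg

theorem sq_add_le (a c : ℂ) : ‖a + c‖ ^ 2 ≤ 2 * ‖a‖ ^ 2 + 2 * ‖c‖ ^ 2 := by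
  have := norm_add_le a c
  nlinarith [norm_nonneg (a + c), norm_nonneg a, norm_nonneg c, sq_nonneg (‖a‖ - ‖c‖)]

theorem half_le {a c z : ℂ} (h : z = (a + c) / 2 ∨ z = -(a + c) / 2) : 2 * ‖z‖ ^ 2 ≤ ‖a‖ ^ 2 + ‖c‖ ^ 2 := by
  have h1 : ‖z‖ = ‖a + c‖ / 2 := by
    rcases h with h | h
    · rw [h, norm_div]; norm_num
    · rw [h, norm_div, norm_neg]; norm_num
  have := sq_add_le a c
  rw [h1, div_pow]
  linarith

theorem Mop_half (b : ℝ) (u : ℝ → ℂ) {x : ℝ} (h : n2 b x) :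
    2 * ‖Mop b u x‖ₑ ^ 2 ≤ ‖u (c1 x)‖ₑ ^ 2 + ‖u (c2 x)‖ₑ ^ 2 := by
  have h1 : Mop b u x = -(u (c1 x) + u (c2 x)) / 2 := by rw [Mop, if_pos h]
  have h2 := half_le (Or.inr h1)
  rw [ofReal_sq_norm, ofReal_sq_norm, ofReal_sq_norm, ← ENNReal.ofReal_add (by positivity) (by positivity)]
  have : (2 : ℝ≥0∞) = ENNReal.ofReal 2 := by norm_num
  rw [this, ← ENNReal.ofReal_mul (by norm_num)]
  exact ENNReal.ofReal_le_ofReal h2

theorem Mop_le (b : ℝ) (u : ℝ → ℂ) (x : ℝ) :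
    ‖Mop b u x‖ₑ ^ 2 ≤ ‖u (c1 x)‖ₑ ^ 2 + ‖u (c2 x)‖ₑ ^ 2 := by
  by_cases h : n2 b x
  · refine le_trans ?_ (Mop_half b u h)
    rw [two_mul]
    exact le_self_add
  · rw [Mop, if_neg h, enorm_neg]
    exact le_self_add

/-- the defect -/
noncomputable def dfc (b : ℝ) (g : ℝ → ℂ) (x : ℝ) : ℂ := g x - Mop b g x

theorem dfc_le (b : ℝ) (g : ℝ → ℂ) (x : ℝ) :
    ‖dfc b g x‖ₑ ^ 2 ≤ ‖g x + g (c1 x)‖ₑ ^ 2 + {x | n2 b x}.indicator (fun x => ‖g x + g (c2 x)‖ₑ ^ 2) x := by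
  by_cases h : n2 b x
  · rw [indicator_of_mem (show x ∈ {x | n2 b x} from h)]
    have h1 : dfc b g x = ((g x + g (c1 x)) + (g x + g (c2 x))) / 2 := by
      rw [dfc, Mop, if_pos h]; ring
    have h2 := half_le (Or.inl h1)
    rw [ofReal_sq_norm, ofReal_sq_norm, ofReal_sq_norm, ← ENNReal.ofReal_add (by positivity) (by positivity)]
    refine ENNReal.ofReal_le_ofReal (le_trans ?_ h2)
    nlinarith [sq_nonneg ‖dfc b g x‖]
  · rw [indicator_of_notMem (show x ∉ {x | n2 b x} from h), add_zero, dfc, Mop, if_neg h, sub_neg_eq_add]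

theorem Mop_add (b : ℝ) (u v : ℝ → ℂ) (x : ℝ) : Mop b (fun y => u y + v y) x = Mop b u x + Mop b v x := by
  unfold Mop
  split_ifs <;> ring

theorem decomp (b : ℝ) (g : ℝ → ℂ) (x : ℝ) :
    g x = dfc b g x + Mop b (dfc b g) x + Mop b (Mop b g) x := by
  have h1 : g = fun y => dfc b g y + Mop b g y := by
    funext y; rw [dfc]; ring
  have h2 : Mop b g x = Mop b (dfc b g) x + Mop b (Mop b g) x := by
    conv_lhs => rw [h1]
    rw [Mop_add]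
  rw [add_assoc, ← h2, dfc]
  ring

theorem three_le (a c d : ℂ) : 2 * ‖a + c + d‖ ^ 2 ≤ 12 * ‖a‖ ^ 2 + 12 * ‖c‖ ^ 2 + 3 * ‖d‖ ^ 2 := by
  have h1 := norm_add_le (a + c) d
  have h2 := sq_add_le a c
  have h3 : ‖a + c + d‖ ^ 2 ≤ (‖a + c‖ + ‖d‖) ^ 2 := pow_le_pow_left₀ (norm_nonneg _) h1 2
  nlinarith [sq_nonneg (2 * ‖a + c‖ - ‖d‖)]

theorem pt_le (b : ℝ) (g : ℝ → ℂ) (x : ℝ) :
    2 * ‖g x‖ₑ ^ 2 ≤ 12 * ‖dfc b g x‖ₑ ^ 2 + 12 * ‖Mop b (dfc b g) x‖ₑ ^ 2 + 3 * ‖Mop b (Mop b g) x‖ₑ ^ 2 := by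
  have h := three_le (dfc b g x) (Mop b (dfc b g) x) (Mop b (Mop b g) x)
  rw [← decomp] at h
  have e2 : (2 : ℝ≥0∞) = ENNReal.ofReal 2 := by norm_num
  have e12 : (12 : ℝ≥0∞) = ENNReal.ofReal 12 := by norm_num
  have e3 : (3 : ℝ≥0∞) = ENNReal.ofReal 3 := by norm_num
  rw [ofReal_sq_norm, ofReal_sq_norm, ofReal_sq_norm, ofReal_sq_norm, e2, e12, e3,
    ← ENNReal.ofReal_mul (by norm_num), ← ENNReal.ofReal_mul (by norm_num), ← ENNReal.ofReal_mul (by norm_num),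
    ← ENNReal.ofReal_mul (by norm_num), ← ENNReal.ofReal_add (by positivity) (by positivity),
    ← ENNReal.ofReal_add (by positivity) (by positivity)]
  exact ENNReal.ofReal_le_ofReal h

theorem n2_c1 {b : ℝ} (hb' : b ≤ 1 / 6) {x : ℝ} (hx : x ≠ 0) (hx' : |x| ≠ 8 * b * 2 ^ sh x)
    (h : ¬ n2 b x) : n2 b (c1 x) := by
  have h1 := sh_le hx
  have h2 := lt_sh (x := x)
  have hs := two_zpow_pos (sh x)
  rw [zp1] at h2
  rw [n2, not_lt] at h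
  have h3 : |x| < 8 * b * 2 ^ sh x := lt_of_le_of_ne h hx'
  have h4 : |c1 x| = 4 * 2 ^ sh x - |x| := by
    rw [c1, sg, zp2]
    split_ifs with hp
    · rw [abs_of_pos hp] at h2 ⊢
      rw [one_mul, abs_of_nonpos (by linarith)]
      ring
    · have hn : x < 0 := lt_of_le_of_ne (not_lt.1 hp) hx
      rw [abs_of_neg hn] at h2 ⊢
      rw [abs_of_nonneg (by linarith)]
      ring
  have h5 : sh (c1 x) = sh x + 1 := by
    refine sh_eq ?_ ?_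
    · rw [h4, zp1]; linarith
    · have : (2 : ℝ) ^ (sh x + 1 + 1) = 4 * 2 ^ sh x := by rw [zp1, zp1]; ring
      rw [h4, this]; linarith
  rw [n2, h5, h4, zp1]
  have h6 : 8 * b * 2 ^ sh x ≤ 4 / 3 * 2 ^ sh x := mul_le_mul_of_nonneg_right (by linarith) hs.le
  linarith

theorem ae_good (b : ℝ) : ∀ᵐ x : ℝ, x ≠ 0 ∧ |x| ≠ 8 * b * 2 ^ sh x := by
  have hc : (({0} ∪ range fun i : ℤ => 8 * b * (2 : ℝ) ^ i) ∪ range fun i : ℤ => -(8 * b * (2 : ℝ) ^ i)).Countable :=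
    ((countable_singleton 0).union (countable_range _)).union (countable_range _)
  filter_upwards [hc.ae_notMem volume] with x hx
  rw [mem_union, mem_union, not_or, not_or] at hx
  obtain ⟨⟨h0, h1⟩, h2⟩ := hx
  refine ⟨h0, fun h => ?_⟩
  rcases abs_choice x with h3 | h3
  · exact h1 ⟨sh x, by simp only; rw [← h, h3]⟩
  · exact h2 ⟨sh x, by simp only; rw [← h, h3, neg_neg]⟩

theorem MM_le {b : ℝ} (hb' : b ≤ 1 / 6) (g : ℝ → ℂ) {x : ℝ} (hx : x ≠ 0 ∧ |x| ≠ 8 * b * 2 ^ sh x) :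
    2 * ‖Mop b (Mop b g) x‖ₑ ^ 2 ≤
      (‖g (c1 (c1 x))‖ₑ ^ 2 + ‖g (c2 (c1 x))‖ₑ ^ 2) + (‖g (c1 (c2 x))‖ₑ ^ 2 + ‖g (c2 (c2 x))‖ₑ ^ 2) := by
  by_cases h : n2 b x
  · exact (Mop_half b (Mop b g) h).trans (add_le_add (Mop_le b g _) (Mop_le b g _))
  · have h1 := n2_c1 hb' hx.1 hx.2 h
    rw [Mop, if_neg h, enorm_neg]
    exact (Mop_half b g h1).trans le_self_add

/-- the lower frame bound -/
theorem lower {b : ℝ} (hb : 0 < b) (hb' : b ≤ 1 / 6) {g : ℝ → ℂ} (hgm : Measurable g) (hg : MemLp g 2 volume) :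
    ∫⁻ x, ‖g x‖ₑ ^ 2 ≤ 48 * ∑' j : ℤ, ∫⁻ ξ in Ioc 0 ((2 : ℝ) ^ j), ‖per (Om b) j g ξ‖ₑ ^ 2 := by
  have mE : ∀ {u : ℝ → ℂ}, Measurable u → Measurable fun x => ‖u x‖ₑ ^ 2 := fun hu => hu.enorm.pow_const 2
  have md : Measurable (dfc b g) := hgm.sub (measurable_Mop b hgm)
  have mMd := measurable_Mop b md
  have mMM := measurable_Mop b (measurable_Mop b hgm)
  set X := ∫⁻ x, ‖g x‖ₑ ^ 2 with hX
  set Q := ∑' j : ℤ, ∫⁻ ξ in Ioc 0 ((2 : ℝ) ^ j), ‖per (Om b) j g ξ‖ₑ ^ 2 with hQ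
  have hXfin : X ≠ ⊤ := by
    rw [hX, ← eLpNorm_two_sq]
    exact ENNReal.pow_ne_top hg.2.ne
  have r1 : ∫⁻ x, ‖dfc b g x‖ₑ ^ 2 ≤ Q := by
    refine le_trans (lintegral_mono fun x => dfc_le b g x) ?_
    rw [lintegral_add_left (f := fun x => ‖g x + g (c1 x)‖ₑ ^ 2) (mE (hgm.add (hgm.comp measurable_c1)))]
    exact edges_le hb hb' g
  have r2 : ∫⁻ x, ‖Mop b (dfc b g) x‖ₑ ^ 2 ≤ Q :=
    ((lintegral_mono fun x => Mop_le b (dfc b g) x).trans (partners_le (mE md))).trans r1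
  have r3 : 2 * ∫⁻ x, ‖Mop b (Mop b g) x‖ₑ ^ 2 ≤ X := by
    rw [← lintegral_const_mul 2 (mE mMM)]
    have m2 : Measurable fun y => ‖g (c1 y)‖ₑ ^ 2 + ‖g (c2 y)‖ₑ ^ 2 :=
      (mE (hgm.comp measurable_c1)).add (mE (hgm.comp measurable_c2))
    calc ∫⁻ x, 2 * ‖Mop b (Mop b g) x‖ₑ ^ 2
        ≤ ∫⁻ x, ((fun y => ‖g (c1 y)‖ₑ ^ 2 + ‖g (c2 y)‖ₑ ^ 2) (c1 x) +
            (fun y => ‖g (c1 y)‖ₑ ^ 2 + ‖g (c2 y)‖ₑ ^ 2) (c2 x)) := by
          refine lintegral_mono_ae ?_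
          filter_upwards [ae_good b] with x hx
          exact MM_le hb' g hx
      _ ≤ ∫⁻ y, (‖g (c1 y)‖ₑ ^ 2 + ‖g (c2 y)‖ₑ ^ 2) := partners_le m2
      _ ≤ X := partners_le (mE hgm)
  have r4 : 2 * X ≤ 12 * (∫⁻ x, ‖dfc b g x‖ₑ ^ 2) + 12 * (∫⁻ x, ‖Mop b (dfc b g) x‖ₑ ^ 2) +
      3 * ∫⁻ x, ‖Mop b (Mop b g) x‖ₑ ^ 2 := by
    rw [hX, ← lintegral_const_mul 2 (mE hgm), ← lintegral_const_mul 12 (mE md), ← lintegral_const_mul 12 (mE mMd),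
      ← lintegral_const_mul 3 (mE mMM), ← lintegral_add_left ((mE md).const_mul 12),
      ← lintegral_add_left (f := fun x => 12 * ‖dfc b g x‖ₑ ^ 2 + 12 * ‖Mop b (dfc b g) x‖ₑ ^ 2)
        (((mE md).const_mul 12).add ((mE mMd).const_mul 12))]
    exact lintegral_mono fun x => pt_le b g x
  have r5 : X + 3 * X ≤ 48 * Q + 3 * X := by
    calc X + 3 * X = 2 * (2 * X) := by ring
      _ ≤ 2 * (12 * Q + 12 * Q + 3 * ∫⁻ x, ‖Mop b (Mop b g) x‖ₑ ^ 2) := by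
        gcongr
        refine r4.trans ?_
        gcongr
      _ = 48 * Q + 3 * (2 * ∫⁻ x, ‖Mop b (Mop b g) x‖ₑ ^ 2) := by ring
      _ ≤ 48 * Q + 3 * X := by gcongr
  exact (ENNReal.add_le_add_iff_right (ENNReal.mul_ne_top (by norm_num) hXfin)).1 r5

end Pool.Agent.Q167.WV
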