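import Pool.Agent.Q167.WV.Upper

/-!
The Shannon wavelet basis and the Riesz basis generated by `1_{(-1,-b) ∪ (b,1)}`, `1/3 ≤ b < 1/2`.
-/

set_option autoImplicit false

open MeasureTheory Filter Topology Set
open scoped ComplexConjugate InnerProductSpace ENNReal FourierTransform
open Pool.Agent.Helper704 Pool.Agent.Helper704.RW

namespace Pool.Agent.Q167.WV

/-- Shannon's set -/
def SS : Set ℝ := Ioo (-1) (-(1 / 2)) ∪ Ioo (1 / 2) 1

theorem measurableSet_SS : MeasurableSet SS := measurableSet_Ioo.union measurableSet_Ioo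

theorem SS_subset : SS ⊆ Ioo (-1) 1 := by
  rintro x (h | h)
  · exact ⟨h.1, by linarith [h.2]⟩
  · exact ⟨by linarith [h.1], h.2⟩

theorem volume_SS : volume SS = 1 := by
  rw [SS, measure_union ?_ measurableSet_Ioo, Real.volume_Ioo, Real.volume_Ioo, ← ENNReal.ofReal_add (by norm_num) (by norm_num)]
  · norm_num
  · rw [disjoint_left]
    intro x h1 h2
    linarith [h1.2, h2.1]

theorem memLp_SS : MemLp (SS.indicator (1 : ℝ → ℂ)) 2 volume :=
  memLp_indicator_const 2 measurableSet_SS 1 (Or.inr (by rw [volume_SS]; norm_num))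

theorem per_SS_right (j : ℤ) (g : ℝ → ℂ) {ξ : ℝ} (h : ξ ∈ Ioo ((2 : ℝ) ^ j / 2) (2 ^ j)) :
    per SS j g ξ = g ξ := by
  have hL := two_zpow_pos j
  have e1 : (2 : ℝ) ^ (-j) * ξ ∈ SS := by
    right
    rw [zpow_neg, inv_mul_eq_div]
    exact ⟨by rw [lt_div_iff₀ hL]; linarith [h.1], by rw [div_lt_iff₀ hL]; linarith [h.2]⟩
  have e2 : (2 : ℝ) ^ (-j) * (ξ - 2 ^ j) ∉ SS := by
    rw [zpow_neg, inv_mul_eq_div]
    rintro (h' | h')
    · have := h'.2
      rw [div_lt_iff₀ hL] at this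
      linarith [h.1]
    · have := h'.1
      rw [lt_div_iff₀ hL] at this
      linarith [h.2]
  rw [per, cut, cut, indicator_of_mem e1, indicator_of_notMem e2]
  simp

theorem per_SS_left (j : ℤ) (g : ℝ → ℂ) {ξ : ℝ} (h : ξ ∈ Ioo 0 ((2 : ℝ) ^ j / 2)) :
    per SS j g ξ = g (ξ - 2 ^ j) := by
  have hL := two_zpow_pos j
  have e1 : (2 : ℝ) ^ (-j) * ξ ∉ SS := by
    rw [zpow_neg, inv_mul_eq_div]
    rintro (h' | h')
    · have := h'.2
      rw [div_lt_iff₀ hL] at this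
      linarith [h.1]
    · have := h'.1
      rw [lt_div_iff₀ hL] at this
      linarith [h.2]
  have e2 : (2 : ℝ) ^ (-j) * (ξ - 2 ^ j) ∈ SS := by
    left
    rw [zpow_neg, inv_mul_eq_div]
    exact ⟨by rw [lt_div_iff₀ hL]; linarith [h.1], by rw [div_lt_iff₀ hL]; linarith [h.2]⟩
  rw [per, cut, cut, indicator_of_notMem e1, indicator_of_mem e2]
  simp

theorem level_SS (j : ℤ) (g : ℝ → ℂ) :
    ∫⁻ ξ in Ioc 0 ((2 : ℝ) ^ j), ‖per SS j g ξ‖ₑ ^ 2 =
      (∫⁻ ξ in Ioo ((2 : ℝ) ^ j / 2) (2 ^ j), ‖g ξ‖ₑ ^ 2) + ∫⁻ ξ in Ioo (-(2 : ℝ) ^ j) (-(2 ^ j / 2)), ‖g ξ‖ₑ ^ 2 := by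
  have hL := two_zpow_pos j
  have h1 : (Ioc 0 ((2 : ℝ) ^ j) : Set ℝ) =ᵐ[volume] (Ioo ((2 : ℝ) ^ j / 2) (2 ^ j) ∪ Ioo 0 ((2 : ℝ) ^ j / 2) : Set ℝ) := by
    have hc : ({2 ^ j, 2 ^ j / 2} : Set ℝ).Countable := (countable_singleton _).insert _
    filter_upwards [hc.ae_notMem volume] with x hx
    rw [mem_insert_iff, mem_singleton_iff, not_or] at hx
    refine propext ⟨fun h => ?_, fun h => ?_⟩
    · rcases lt_or_gt_of_ne hx.2 with h2 | h2
      · exact Or.inr ⟨h.1, h2⟩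
      · exact Or.inl ⟨h2, lt_of_le_of_ne h.2 hx.1⟩
    · rcases h with h | h
      · exact ⟨by linarith [h.1], h.2.le⟩
      · exact ⟨h.1, by linarith [h.2]⟩
  rw [setLIntegral_congr h1, lintegral_union measurableSet_Ioo]
  · congr 1
    · exact setLIntegral_congr_fun measurableSet_Ioo fun x hx => by rw [per_SS_right j g hx]
    · rw [setLIntegral_congr_fun (g := fun x => ‖g (x + -(2 : ℝ) ^ j)‖ₑ ^ 2) measurableSet_Ioo
        (fun x hx => by rw [per_SS_left j g hx, sub_eq_add_neg]), shift_Ioo (fun x => ‖g x‖ₑ ^ 2)]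
      congr 2
      congr 1 <;> ring
  · rw [disjoint_left]
    intro x h1 h2
    linarith [h1.1, h2.2]

theorem parseval_SS (u : HH) :
    ∑' p : ℤ × ℤ, ‖⟪Dh p (memLp_SS.toLp _), u⟫_ℂ‖ₑ ^ 2 = ‖u‖ₑ ^ 2 := by
  simp_rw [inner_Dh memLp_SS]
  rw [ENNReal.tsum_prod' (f := fun p : ℤ × ℤ => ‖∫ ξ, conj (fq p (SS.indicator 1) ξ) * u ξ‖ₑ ^ 2),
    tsum_congr (fun j => level measurableSet_SS SS_subset j (Lp.memLp u))]
  simp_rw [level_SS]
  rw [ENNReal.tsum_add, enorm_sq, shells]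
  congr 1
  · rw [← (Equiv.addRight (1 : ℤ)).tsum_eq (fun j : ℤ => ∫⁻ ξ in Ioo ((2 : ℝ) ^ j / 2) (2 ^ j), ‖u ξ‖ₑ ^ 2)]
    refine tsum_congr fun i => ?_
    congr 2
    rw [Equiv.coe_addRight, zp1]
    congr 1 <;> ring
  · rw [← (Equiv.addRight (1 : ℤ)).tsum_eq (fun j : ℤ => ∫⁻ ξ in Ioo (-(2 : ℝ) ^ j) (-(2 ^ j / 2)), ‖u ξ‖ₑ ^ 2)]
    refine tsum_congr fun i => ?_
    congr 2
    rw [Equiv.coe_addRight, zp1]
    congr 1 <;> ring

theorem norm_eS (p : ℤ × ℤ) : ‖Dh p (memLp_SS.toLp _)‖ = 1 := by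
  rw [LinearIsometry.norm_map]
  have h : ‖memLp_SS.toLp (SS.indicator (1 : ℝ → ℂ))‖ₑ ^ 2 = 1 := by
    rw [enorm_sq, lintegral_congr_ae (g := SS.indicator 1)]
    · rw [lintegral_indicator_one measurableSet_SS, volume_SS]
    · filter_upwards [memLp_SS.coeFn_toLp] with x hx
      rw [hx]
      by_cases h : x ∈ SS
      · rw [indicator_of_mem h, indicator_of_mem h]; simp
      · rw [indicator_of_notMem h, indicator_of_notMem h]; simp
  rw [← ofReal_norm, ← ENNReal.ofReal_pow (norm_nonneg _), ENNReal.ofReal_eq_one] at h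
  nlinarith [norm_nonneg (memLp_SS.toLp (SS.indicator (1 : ℝ → ℂ)))]

theorem orthonormal_eS : Orthonormal ℂ fun p => Dh p (memLp_SS.toLp _) := by
  classical
  refine ⟨norm_eS, fun p q hpq => ?_⟩
  have h1 := parseval_SS (Dh q (memLp_SS.toLp _))
  have h2 := ENNReal.sum_le_tsum (f := fun p : ℤ × ℤ =>
    ‖⟪Dh p (memLp_SS.toLp _), Dh q (memLp_SS.toLp _)⟫_ℂ‖ₑ ^ 2) {p, q}
  rw [h1, Finset.sum_pair hpq] at h2
  have h3 : ‖Dh q (memLp_SS.toLp (SS.indicator (1 : ℝ → ℂ)))‖ₑ = 1 := by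
    rw [← ofReal_norm, norm_eS]; simp
  have h4 : ‖⟪Dh q (memLp_SS.toLp _), Dh q (memLp_SS.toLp (SS.indicator (1 : ℝ → ℂ)))⟫_ℂ‖ₑ = 1 := by
    rw [inner_self_eq_norm_sq_to_K, norm_eS]; simp
  rw [h3, h4, one_pow] at h2
  have h5 : ‖⟪Dh p (memLp_SS.toLp _), Dh q (memLp_SS.toLp (SS.indicator (1 : ℝ → ℂ)))⟫_ℂ‖ₑ ^ 2 ≤ 0 := by
    rw [← ENNReal.add_le_add_iff_right (a := 1) (by norm_num), zero_add]
    exact h2
  have h6 := pow_eq_zero_iff (two_ne_zero) |>.1 (le_antisymm h5 zero_le)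
  exact enorm_eq_zero.1 h6

theorem dense_eS (x : HH) (η : ℝ) (hη : 0 < η) :
    ∃ (s : Finset (ℤ × ℤ)) (c : ℤ × ℤ → ℂ), ‖x - ∑ p ∈ s, c p • Dh p (memLp_SS.toLp _)‖ < η := by
  have h1 : (Submodule.span ℂ (range fun p => Dh p (memLp_SS.toLp (SS.indicator (1 : ℝ → ℂ))))).topologicalClosure = ⊤ := by
    rw [Submodule.topologicalClosure_eq_top_iff, Submodule.eq_bot_iff]
    intro u hu
    rw [Submodule.mem_orthogonal] at hu
    have h2 := parseval_SS u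
    have h3 : ∀ p, ⟪Dh p (memLp_SS.toLp _), u⟫_ℂ = 0 := fun p => hu _ (Submodule.subset_span ⟨p, rfl⟩)
    simp_rw [h3] at h2
    have h4 : ‖u‖ₑ ^ 2 = 0 := by rw [← h2]; simp
    exact enorm_eq_zero.1 (pow_eq_zero_iff (two_ne_zero) |>.1 h4)
  have hmem : x ∈ closure ((Submodule.span ℂ
      (range fun p => Dh p (memLp_SS.toLp (SS.indicator (1 : ℝ → ℂ)))) : Submodule ℂ HH) : Set HH) := by
    rw [← Submodule.topologicalClosure_coe, h1]; trivial
  rw [Metric.mem_closure_iff] at hmem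
  obtain ⟨y, hy, hxy⟩ := hmem η hη
  obtain ⟨c, rfl⟩ := Finsupp.mem_span_range_iff_exists_finsupp.1 hy
  rw [dist_eq_norm] at hxy
  exact ⟨c.support, c, hxy⟩

/-! ### the three pieces -/

/-- the part of Shannon's set that stays alone -/
def SA (b : ℝ) : Set ℝ := Icc (-(2 * b)) (-(1 / 2)) \ {-(1 / 2)} ∪ Icc (1 / 2) (2 * b) \ {1 / 2}

/-- the part of Shannon's set that is met twice -/
def SB (b : ℝ) : Set ℝ := Ioo (-1) (-(2 * b)) ∪ Ioo (2 * b) 1

/-- the additional part -/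
def SR (b : ℝ) : Set ℝ := Ioo (-(1 / 2)) (-b) ∪ Ioo b (1 / 2)

theorem mem_SA {b x : ℝ} : x ∈ SA b ↔ 1 / 2 < |x| ∧ |x| ≤ 2 * b := by
  rw [SA, mem_union, Set.mem_sdiff, Set.mem_sdiff, mem_Icc, mem_Icc, mem_singleton_iff, mem_singleton_iff]
  constructor
  · rintro (⟨⟨h1, h2⟩, h3⟩ | ⟨⟨h1, h2⟩, h3⟩)
    · have : x < -(1 / 2) := lt_of_le_of_ne h2 h3
      rw [abs_of_neg (by linarith)]
      constructor <;> linarith
    · have : 1 / 2 < x := lt_of_le_of_ne h1 (Ne.symm h3)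
      rw [abs_of_pos (by linarith)]
      constructor <;> linarith
  · rintro ⟨h1, h2⟩
    rcases le_total 0 x with h | h
    · rw [abs_of_nonneg h] at h1 h2
      exact Or.inr ⟨⟨h1.le, h2⟩, h1.ne'⟩
    · rw [abs_of_nonpos h] at h1 h2
      exact Or.inl ⟨⟨by linarith, by linarith⟩, by intro h3; linarith⟩

theorem mem_SB {b x : ℝ} (hb : 0 < b) : x ∈ SB b ↔ 2 * b < |x| ∧ |x| < 1 := by
  rw [SB, mem_union, mem_Ioo, mem_Ioo]
  constructor
  · rintro (⟨h1, h2⟩ | ⟨h1, h2⟩)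
    · rw [abs_of_neg (by linarith)]
      constructor <;> linarith
    · rw [abs_of_pos (by linarith)]
      constructor <;> linarith
  · rintro ⟨h1, h2⟩
    rcases le_total 0 x with h | h
    · rw [abs_of_nonneg h] at h1 h2
      exact Or.inr ⟨h1, h2⟩
    · rw [abs_of_nonpos h] at h1 h2
      exact Or.inl ⟨by linarith, by linarith⟩

theorem mem_SR {b x : ℝ} (hb : 0 < b) : x ∈ SR b ↔ b < |x| ∧ |x| < 1 / 2 := by
  rw [SR, mem_union, mem_Ioo, mem_Ioo]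
  constructor
  · rintro (⟨h1, h2⟩ | ⟨h1, h2⟩)
    · rw [abs_of_neg (by linarith)]
      constructor <;> linarith
    · rw [abs_of_pos (by linarith)]
      constructor <;> linarith
  · rintro ⟨h1, h2⟩
    rcases le_total 0 x with h | h
    · rw [abs_of_nonneg h] at h1 h2
      exact Or.inr ⟨h1, h2⟩
    · rw [abs_of_nonpos h] at h1 h2
      exact Or.inl ⟨by linarith, by linarith⟩

theorem measurableSet_SA (b : ℝ) : MeasurableSet (SA b) :=
  (measurableSet_Icc.diff (measurableSet_singleton _)).union (measurableSet_Icc.diff (measurableSet_singleton _))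

theorem measurableSet_SB (b : ℝ) : MeasurableSet (SB b) := measurableSet_Ioo.union measurableSet_Ioo

theorem measurableSet_SR (b : ℝ) : MeasurableSet (SR b) := measurableSet_Ioo.union measurableSet_Ioo

theorem memLp_of_subset {S : Set ℝ} (hS : MeasurableSet S) (h : S ⊆ Icc (-1) 1) :
    MemLp (S.indicator (1 : ℝ → ℂ)) 2 volume :=
  memLp_indicator_const 2 hS 1 (Or.inr ((measure_mono h).trans_lt (by simp [Real.volume_Icc])).ne)

theorem memLp_SA {b : ℝ} (hb : 0 < b) (hb' : b < 1 / 2) : MemLp ((SA b).indicator (1 : ℝ → ℂ)) 2 volume :=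
  memLp_of_subset (measurableSet_SA b) fun x hx => abs_le.1 (by linarith [(mem_SA.1 hx).2])

theorem memLp_SB {b : ℝ} (hb : 0 < b) : MemLp ((SB b).indicator (1 : ℝ → ℂ)) 2 volume :=
  memLp_of_subset (measurableSet_SB b) fun x hx => abs_le.1 (by linarith [((mem_SB hb).1 hx).2])

theorem memLp_SR {b : ℝ} (hb : 0 < b) : MemLp ((SR b).indicator (1 : ℝ → ℂ)) 2 volume :=
  memLp_of_subset (measurableSet_SR b) fun x hx => abs_le.1 (by linarith [((mem_SR hb).1 hx).2])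

theorem ratio {i j : ℤ} {ξ : ℝ} (n : ℤ) (h1 : 2 ^ n * |(2 : ℝ) ^ (-i) * ξ| < |(2 : ℝ) ^ (-j) * ξ|)
    (h2 : |(2 : ℝ) ^ (-j) * ξ| < 2 ^ (n + 1) * |(2 : ℝ) ^ (-i) * ξ|) : False := by
  have hi := two_zpow_pos (-i)
  have hj := two_zpow_pos (-j)
  rw [abs_mul, abs_mul, abs_of_pos hi, abs_of_pos hj] at h1 h2
  have hξ : 0 < |ξ| := by
    rcases (abs_nonneg ξ).lt_or_eq with h | h
    · exact h
    · rw [← h] at h1; simp at h1
  rw [← mul_assoc, mul_lt_mul_iff_left₀ hξ, ← zpow_add₀ two_ne_zero] at h1 h2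
  have a1 := (zpow_lt_zpow_iff_right₀ (one_lt_two : (1 : ℝ) < 2)).1 h1
  have a2 := (zpow_lt_zpow_iff_right₀ (one_lt_two : (1 : ℝ) < 2)).1 h2
  omega

theorem ratio_eq {i j : ℤ} {ξ : ℝ} (h1 : |(2 : ℝ) ^ (-i) * ξ| < 2 * |(2 : ℝ) ^ (-j) * ξ|)
    (h2 : |(2 : ℝ) ^ (-j) * ξ| < 2 * |(2 : ℝ) ^ (-i) * ξ|) : i = j := by
  have hi := two_zpow_pos (-i)
  have hj := two_zpow_pos (-j)
  rw [abs_mul, abs_mul, abs_of_pos hi, abs_of_pos hj] at h1 h2
  have hξ : 0 < |ξ| := by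
    rcases (abs_nonneg ξ).lt_or_eq with h | h
    · exact h
    · rw [← h] at h1; simp at h1
  rw [← mul_assoc, mul_lt_mul_iff_left₀ hξ, ← zp1] at h1 h2
  have a1 := (zpow_lt_zpow_iff_right₀ (one_lt_two : (1 : ℝ) < 2)).1 h1
  have a2 := (zpow_lt_zpow_iff_right₀ (one_lt_two : (1 : ℝ) < 2)).1 h2
  omega

theorem mem_of_ind {S : Set ℝ} {x : ℝ} (h : (S.indicator 1 x : ℂ) ≠ 0) : x ∈ S := by
  by_contra h'
  exact h (indicator_of_notMem h' _)

theorem orth_Dh {S T : Set ℝ} (hS : MemLp (S.indicator (1 : ℝ → ℂ)) 2 volume)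
    (hT : MemLp (T.indicator (1 : ℝ → ℂ)) 2 volume)
    (hd : ∀ (ξ : ℝ) (i j : ℤ), (2 : ℝ) ^ (-i) * ξ ∈ S → (2 : ℝ) ^ (-j) * ξ ∈ T → False) (p q : ℤ × ℤ) :
    ⟪Dh p (hS.toLp _), Dh q (hT.toLp _)⟫_ℂ = 0 := by
  rw [inner_Dh hS, Dh_toLp]
  have : ∫ ξ, conj (fq p (S.indicator 1) ξ) * ((memLp_fq q hT).toLp _ : HH) ξ = ∫ ξ : ℝ, (0 : ℂ) := by
    refine integral_congr_ae ?_
    filter_upwards [(memLp_fq q hT).coeFn_toLp] with ξ hξ
    rw [hξ, fq, fq]
    by_cases h1 : (2 : ℝ) ^ (-p.1) * ξ ∈ S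
    · rw [indicator_of_notMem (s := T) (fun h2 => hd ξ p.1 q.1 h1 h2)]
      simp
    · rw [indicator_of_notMem h1]
      simp
  rw [this, integral_zero]

theorem energy_le {b : ℝ} (hb0 : 0 < b) (hb : 1 / 3 ≤ b) (hb' : b < 1 / 2) (s : Finset (ℤ × ℤ)) (c : ℤ × ℤ → ℂ) :
    ‖∑ p ∈ s, c p • Dh p ((memLp_SR hb0).toLp _)‖ ^ 2 ≤
      1 * ‖∑ p ∈ s, c p • Dh p ((memLp_SA hb0 hb').toLp _)‖ ^ 2 := by
  rw [one_mul]
  have h : ‖∑ p ∈ s, c p • Dh p ((memLp_SR hb0).toLp _)‖ₑ ^ 2 ≤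
      ‖∑ p ∈ s, c p • Dh p ((memLp_SA hb0 hb').toLp _)‖ₑ ^ 2 := by
    rw [energy, energy]
    · refine Finset.sum_le_sum fun j _ => ?_
      have hT1 : ∀ η, ‖trig s c j (η + 1)‖ₑ ^ 2 = ‖trig s c j η‖ₑ ^ 2 := by
        intro η
        have := trig_add_int s c j η 1
        rw [Int.cast_one] at this
        rw [this]
      have hT2 : ∀ η, ‖trig s c j (η + -1)‖ₑ ^ 2 = ‖trig s c j η‖ₑ ^ 2 := by
        intro η
        have := trig_add_int s c j η (-1)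
        rw [Int.cast_neg, Int.cast_one] at this
        rw [this]
      have hind : ∀ (S : Set ℝ), MeasurableSet S → ∫⁻ η, ‖trig s c j η‖ₑ ^ 2 * ‖(S.indicator 1 η : ℂ)‖ₑ ^ 2 =
          ∫⁻ η in S, ‖trig s c j η‖ₑ ^ 2 := by
        intro S hS
        rw [← lintegral_indicator hS]
        refine lintegral_congr fun η => ?_
        by_cases h : η ∈ S
        · rw [indicator_of_mem h, indicator_of_mem h]; simp
        · rw [indicator_of_notMem h, indicator_of_notMem h]; simp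
      rw [hind _ (measurableSet_SR b), hind _ (measurableSet_SA b), SR, lintegral_union measurableSet_Ioo]
      · have s1 := shift_Ioo (fun η => ‖trig s c j η‖ₑ ^ 2) (-(1 / 2)) (-b) 1
        have s2 := shift_Ioo (fun η => ‖trig s c j η‖ₑ ^ 2) b (1 / 2) (-1)
        simp_rw [hT1] at s1
        simp_rw [hT2] at s2
        rw [s1, s2]
        refine two_le _ measurableSet_Ioo ?_ ?_ ?_
        · rw [disjoint_left]
          intro x h1 h2
          linarith [h1.1, h2.2]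
        · intro x hx
          rw [mem_SA, abs_of_pos (by linarith [hx.1])]
          exact ⟨by linarith [hx.1], by linarith [hx.2]⟩
        · intro x hx
          rw [mem_SA, abs_of_neg (by linarith [hx.2])]
          exact ⟨by linarith [hx.2], by linarith [hx.1]⟩
      · rw [disjoint_left]
        intro x h1 h2
        linarith [h1.2, h2.1]
    · intro ξ j j' h1 h2
      have m1 := (mem_SA).1 (mem_of_ind h1)
      have m2 := (mem_SA).1 (mem_of_ind h2)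
      exact ratio_eq (by linarith) (by linarith)
    · intro ξ j j' h1 h2
      have m1 := (mem_SR hb0).1 (mem_of_ind h1)
      have m2 := (mem_SR hb0).1 (mem_of_ind h2)
      exact ratio_eq (by linarith) (by linarith)
  rw [← ofReal_norm, ← ofReal_norm, ← ENNReal.ofReal_pow (norm_nonneg _), ← ENNReal.ofReal_pow (norm_nonneg _)] at h
  exact (ENNReal.ofReal_le_ofReal_iff (by positivity)).1 h

end Pool.Agent.Q167.WV
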