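import Pool.Agent.Q167.WV.Core

/-!
Dyadic shells and the two piecewise translations used for the lower frame bound.
-/

set_option autoImplicit false

open MeasureTheory Filter Topology Set
open scoped ComplexConjugate InnerProductSpace ENNReal FourierTransform
open Pool.Agent.Helper704 Pool.Agent.Helper704.RW

namespace Pool.Agent.Q167.WV

theorem mono_zpow2 : Monotone fun i : ℤ => (2 : ℝ) ^ i := zpow_right_mono₀ one_le_two

theorem anti_zpow2 : Antitone fun i : ℤ => -(2 : ℝ) ^ i := fun _ _ h => neg_le_neg (mono_zpow2 h)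

theorem disj_pos : Pairwise (Function.onFun Disjoint fun i : ℤ => Ioo ((2 : ℝ) ^ i) (2 ^ (i + 1))) :=
  mono_zpow2.pairwise_disjoint_on_Ioo_succ

theorem disj_neg : Pairwise (Function.onFun Disjoint fun i : ℤ => Ioo (-(2 : ℝ) ^ (i + 1)) (-2 ^ i)) :=
  anti_zpow2.pairwise_disjoint_on_Ioo_succ

/-- the exponent of the shell -/
noncomputable def sh (x : ℝ) : ℤ := Int.log 2 |x|

theorem sh_le {x : ℝ} (hx : x ≠ 0) : (2 : ℝ) ^ sh x ≤ |x| := by
  have := Int.zpow_log_le_self (b := 2) one_lt_two (abs_pos.2 hx)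
  exact_mod_cast this

theorem lt_sh {x : ℝ} : |x| < (2 : ℝ) ^ (sh x + 1) := by
  have := Int.lt_zpow_succ_log_self (b := 2) one_lt_two |x|
  exact_mod_cast this

theorem sh_eq {x : ℝ} {i : ℤ} (h1 : (2 : ℝ) ^ i ≤ |x|) (h2 : |x| < 2 ^ (i + 1)) : sh x = i := by
  have hx : x ≠ 0 := by
    rintro rfl
    rw [abs_zero] at h1
    exact absurd h1 (not_le.2 (two_zpow_pos i))
  have h3 := sh_le hx
  have h4 := lt_sh (x := x)
  have h5 : sh x < i + 1 := (zpow_lt_zpow_iff_right₀ (one_lt_two : (1 : ℝ) < 2)).1 (h3.trans_lt h2)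
  have h6 : i < sh x + 1 := (zpow_lt_zpow_iff_right₀ (one_lt_two : (1 : ℝ) < 2)).1 (h1.trans_lt h4)
  omega

theorem sh_of_pos {x : ℝ} {i : ℤ} (h : x ∈ Ioo ((2 : ℝ) ^ i) (2 ^ (i + 1))) : sh x = i := by
  have h0 := two_zpow_pos i
  have h1 : |x| = x := abs_of_pos (h0.trans h.1)
  exact sh_eq (by rw [h1]; exact h.1.le) (by rw [h1]; exact h.2)

theorem sh_of_neg {x : ℝ} {i : ℤ} (h : x ∈ Ioo (-(2 : ℝ) ^ (i + 1)) (-2 ^ i)) : sh x = i := by
  have h0 := two_zpow_pos i
  have h1 : |x| = -x := abs_of_neg (by linarith [h.2])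
  exact sh_eq (by rw [h1]; linarith [h.2]) (by rw [h1]; linarith [h.1])

theorem measurable_sh : Measurable sh := by
  refine measurable_to_countable' fun i => ?_
  have : sh ⁻¹' {i} = if i = 0 then (Icc 1 2 \ {2}) ∪ (Icc (-2) (-1) \ {-2}) ∪ {0} else
      (fun x : ℝ => |x|) ⁻¹' (Ico (2 ^ i) (2 ^ (i + 1))) := by
    ext x
    split_ifs with h
    · subst h
      simp only [mem_preimage, mem_singleton_iff, mem_union, Set.mem_sdiff, mem_Icc]
      constructor
      · intro hx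
        by_cases h0 : x = 0
        · exact Or.inr h0
        · left
          have h1 := sh_le h0
          have h2 := lt_sh (x := x)
          rw [hx] at h1 h2
          norm_num at h1 h2
          rcases le_total 0 x with h3 | h3
          · rw [abs_of_nonneg h3] at h1 h2
            exact Or.inl ⟨⟨h1, h2.le⟩, h2.ne⟩
          · rw [abs_of_nonpos h3] at h1 h2
            exact Or.inr ⟨⟨by linarith, by linarith⟩, by intro h; rw [h] at h2; norm_num at h2⟩
      · rintro ((⟨⟨h1, h2⟩, h3⟩ | ⟨⟨h1, h2⟩, h3⟩) | h1)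
        · refine sh_eq ?_ ?_
          · rw [abs_of_nonneg (by linarith)]; simpa using h1
          · rw [abs_of_nonneg (by linarith)]; norm_num; exact lt_of_le_of_ne h2 h3
        · refine sh_eq ?_ ?_
          · rw [abs_of_nonpos (by linarith)]; norm_num; linarith
          · rw [abs_of_nonpos (by linarith)]; norm_num
            have : -2 < x := lt_of_le_of_ne h1 (Ne.symm h3)
            linarith
        · rw [h1, sh, abs_zero]; simp
    · simp only [mem_preimage, mem_singleton_iff, mem_Ico]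
      constructor
      · intro hx
        have h0 : x ≠ 0 := by
          rintro rfl
          apply h
          rw [← hx, sh, abs_zero]; simp
        rw [← hx]
        exact ⟨sh_le h0, lt_sh⟩
      · rintro ⟨h1, h2⟩
        exact sh_eq h1 h2
  rw [this]
  split_ifs
  · exact ((measurableSet_Icc.diff (measurableSet_singleton _)).union
      (measurableSet_Icc.diff (measurableSet_singleton _))).union (measurableSet_singleton _)
  · exact measurable_abs measurableSet_Ico

theorem shells (F : ℝ → ℝ≥0∞) :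
    ∫⁻ x, F x = ∑' i : ℤ, (∫⁻ x in Ioo ((2 : ℝ) ^ i) (2 ^ (i + 1)), F x) +
      ∑' i : ℤ, ∫⁻ x in Ioo (-(2 : ℝ) ^ (i + 1)) (-2 ^ i), F x := by
  rw [← lintegral_iUnion (fun i => measurableSet_Ioo) disj_pos F,
    ← lintegral_iUnion (fun i => measurableSet_Ioo) disj_neg F,
    ← lintegral_union (MeasurableSet.iUnion fun i => measurableSet_Ioo)]
  · rw [← setLIntegral_univ F]
    refine setLIntegral_congr ?_
    have hc : (({0} ∪ range fun i : ℤ => (2 : ℝ) ^ i) ∪ range fun i : ℤ => -(2 : ℝ) ^ i).Countable :=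
      ((countable_singleton 0).union (countable_range _)).union (countable_range _)
    filter_upwards [hc.ae_notMem volume] with x hx
    refine propext ⟨fun _ => ?_, fun _ => trivial⟩
    rw [mem_union, mem_union, not_or, not_or] at hx
    obtain ⟨⟨h0, h1⟩, h2⟩ := hx
    have h0' : x ≠ 0 := h0
    have h3 := sh_le h0'
    have h4 := lt_sh (x := x)
    rcases lt_or_gt_of_ne h0' with hn | hp
    · right
      rw [abs_of_neg hn] at h3 h4
      refine mem_iUnion.2 ⟨sh x, ⟨by linarith, ?_⟩⟩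
      refine lt_of_le_of_ne (by linarith) fun h => h2 ⟨sh x, h.symm⟩
    · left
      rw [abs_of_pos hp] at h3 h4
      exact mem_iUnion.2 ⟨sh x, ⟨lt_of_le_of_ne h3 fun h => h1 ⟨sh x, h⟩, h4⟩⟩
  · rw [disjoint_left]
    intro x hx hx'
    obtain ⟨i, hi⟩ := mem_iUnion.1 hx
    obtain ⟨j, hj⟩ := mem_iUnion.1 hx'
    have := two_zpow_pos i
    have := two_zpow_pos j
    linarith [hi.1, hj.2]

theorem shift_Ioo (F : ℝ → ℝ≥0∞) (a b c : ℝ) :
    ∫⁻ x in Ioo a b, F (x + c) = ∫⁻ x in Ioo (a + c) (b + c), F x := by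
  rw [← lintegral_indicator measurableSet_Ioo, ← lintegral_indicator measurableSet_Ioo,
    ← lintegral_add_right_eq_self ((Ioo (a + c) (b + c)).indicator fun x => F x) c]
  refine lintegral_congr fun x => ?_
  by_cases h : x ∈ Ioo a b
  · rw [indicator_of_mem h, indicator_of_mem (show x + c ∈ Ioo (a + c) (b + c) from
      ⟨by linarith [h.1], by linarith [h.2]⟩)]
  · rw [indicator_of_notMem h, indicator_of_notMem]
    intro h'
    exact h ⟨by linarith [h'.1], by linarith [h'.2]⟩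

theorem two_le (F : ℝ → ℝ≥0∞) {s t u : Set ℝ} (ht : MeasurableSet t) (hd : Disjoint s t) (hs : s ⊆ u)
    (ht' : t ⊆ u) : (∫⁻ x in s, F x) + ∫⁻ x in t, F x ≤ ∫⁻ x in u, F x := by
  rw [← lintegral_union ht hd]
  exact lintegral_mono_set (union_subset hs ht')

/-- the sign -/
noncomputable def sg (x : ℝ) : ℝ := if 0 < x then 1 else -1

theorem measurable_sg : Measurable sg := Measurable.ite measurableSet_Ioi measurable_const measurable_const

/-- the first partner -/
noncomputable def c1 (x : ℝ) : ℝ := x - sg x * 2 ^ (sh x + 2)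

/-- the second partner -/
noncomputable def c2 (x : ℝ) : ℝ := x - sg x * 2 ^ (sh x + 3)

theorem measurable_c1 : Measurable c1 := by
  have : Measurable fun x => (2 : ℝ) ^ (sh x + 2) :=
    (measurable_from_top (f := fun n : ℤ => (2 : ℝ) ^ (n + 2))).comp measurable_sh
  exact measurable_id.sub (measurable_sg.mul this)

theorem measurable_c2 : Measurable c2 := by
  have : Measurable fun x => (2 : ℝ) ^ (sh x + 3) :=
    (measurable_from_top (f := fun n : ℤ => (2 : ℝ) ^ (n + 3))).comp measurable_sh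
  exact measurable_id.sub (measurable_sg.mul this)

theorem c1_pos {x : ℝ} {i : ℤ} (h : x ∈ Ioo ((2 : ℝ) ^ i) (2 ^ (i + 1))) : c1 x = x - 2 ^ (i + 2) := by
  rw [c1, sg, if_pos ((two_zpow_pos i).trans h.1), sh_of_pos h, one_mul]

theorem c2_pos {x : ℝ} {i : ℤ} (h : x ∈ Ioo ((2 : ℝ) ^ i) (2 ^ (i + 1))) : c2 x = x - 2 ^ (i + 3) := by
  rw [c2, sg, if_pos ((two_zpow_pos i).trans h.1), sh_of_pos h, one_mul]

theorem c1_neg {x : ℝ} {i : ℤ} (h : x ∈ Ioo (-(2 : ℝ) ^ (i + 1)) (-2 ^ i)) : c1 x = x + 2 ^ (i + 2) := by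
  have h0 : ¬ 0 < x := by
    have := two_zpow_pos i
    linarith [h.2]
  rw [c1, sg, if_neg h0, sh_of_neg h]
  ring

theorem c2_neg {x : ℝ} {i : ℤ} (h : x ∈ Ioo (-(2 : ℝ) ^ (i + 1)) (-2 ^ i)) : c2 x = x + 2 ^ (i + 3) := by
  have h0 : ¬ 0 < x := by
    have := two_zpow_pos i
    linarith [h.2]
  rw [c2, sg, if_neg h0, sh_of_neg h]
  ring

theorem zp1 (i : ℤ) : (2 : ℝ) ^ (i + 1) = 2 * 2 ^ i := by rw [zpow_add₀ two_ne_zero]; norm_num; ring
theorem zp2 (i : ℤ) : (2 : ℝ) ^ (i + 2) = 4 * 2 ^ i := by rw [zpow_add₀ two_ne_zero]; norm_num; ring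
theorem zp3 (i : ℤ) : (2 : ℝ) ^ (i + 3) = 8 * 2 ^ i := by rw [zpow_add₀ two_ne_zero]; norm_num; ring

/-- (I1): the two partner maps have disjoint ranges and preserve the measure -/
theorem partners_le {h : ℝ → ℝ≥0∞} (hm : Measurable h) :
    ∫⁻ x, (h (c1 x) + h (c2 x)) ≤ ∫⁻ x, h x := by
  rw [lintegral_add_left (f := fun x => h (c1 x)) (hm.comp measurable_c1)]
  have e1 : ∫⁻ x, h (c1 x) = ∑' m : ℤ, (∫⁻ x in Ioo (-(3 / 2 * (2 : ℝ) ^ m)) (-(2 ^ m)), h x) +
      ∑' m : ℤ, ∫⁻ x in Ioo ((2 : ℝ) ^ m) (3 / 2 * 2 ^ m), h x := by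
    rw [shells]
    congr 1
    · rw [← (Equiv.addRight (1 : ℤ)).tsum_eq (fun m : ℤ => ∫⁻ x in Ioo (-(3 / 2 * (2 : ℝ) ^ m)) (-(2 ^ m)), h x)]
      refine tsum_congr fun i => ?_
      rw [setLIntegral_congr_fun (g := fun x => h (x + -(2 : ℝ) ^ (i + 2))) measurableSet_Ioo
        (fun x hx => by simp only; rw [c1_pos hx, sub_eq_add_neg]), shift_Ioo]
      congr 2
      rw [Equiv.coe_addRight, zp1, zp2]
      congr 1 <;> ring
    · rw [← (Equiv.addRight (1 : ℤ)).tsum_eq (fun m : ℤ => ∫⁻ x in Ioo ((2 : ℝ) ^ m) (3 / 2 * 2 ^ m), h x)]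
      refine tsum_congr fun i => ?_
      rw [setLIntegral_congr_fun (g := fun x => h (x + (2 : ℝ) ^ (i + 2))) measurableSet_Ioo
        (fun x hx => by simp only; rw [c1_neg hx]), shift_Ioo]
      congr 2
      rw [Equiv.coe_addRight, zp1, zp2]
      congr 1 <;> ring
  have e2 : ∫⁻ x, h (c2 x) = ∑' m : ℤ, (∫⁻ x in Ioo (-(7 / 4 * (2 : ℝ) ^ m)) (-(3 / 2 * 2 ^ m)), h x) +
      ∑' m : ℤ, ∫⁻ x in Ioo (3 / 2 * (2 : ℝ) ^ m) (7 / 4 * 2 ^ m), h x := by
    rw [shells]
    congr 1
    · rw [← (Equiv.addRight (2 : ℤ)).tsum_eq (fun m : ℤ => ∫⁻ x in Ioo (-(7 / 4 * (2 : ℝ) ^ m)) (-(3 / 2 * 2 ^ m)), h x)]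
      refine tsum_congr fun i => ?_
      rw [setLIntegral_congr_fun (g := fun x => h (x + -(2 : ℝ) ^ (i + 3))) measurableSet_Ioo
        (fun x hx => by simp only; rw [c2_pos hx, sub_eq_add_neg]), shift_Ioo]
      congr 2
      rw [Equiv.coe_addRight, zp1, zp2, zp3]
      congr 1 <;> ring
    · rw [← (Equiv.addRight (2 : ℤ)).tsum_eq (fun m : ℤ => ∫⁻ x in Ioo (3 / 2 * (2 : ℝ) ^ m) (7 / 4 * 2 ^ m), h x)]
      refine tsum_congr fun i => ?_
      rw [setLIntegral_congr_fun (g := fun x => h (x + (2 : ℝ) ^ (i + 3))) measurableSet_Ioo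
        (fun x hx => by simp only; rw [c2_neg hx]), shift_Ioo]
      congr 2
      rw [Equiv.coe_addRight, zp1, zp2, zp3]
      congr 1 <;> ring
  rw [e1, e2, add_add_add_comm, ← ENNReal.tsum_add, ← ENNReal.tsum_add, shells h, add_comm]
  gcongr with m m
  · refine two_le h measurableSet_Ioo ?_ ?_ ?_
    · rw [disjoint_left]
      intro x h1 h2
      linarith [h1.2, h2.1]
    · intro x hx
      have := two_zpow_pos m
      rw [zp1]
      exact ⟨hx.1, by linarith [hx.2]⟩
    · intro x hx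
      have := two_zpow_pos m
      rw [zp1]
      exact ⟨by linarith [hx.1], by linarith [hx.2]⟩
  · refine two_le h measurableSet_Ioo ?_ ?_ ?_
    · rw [disjoint_left]
      intro x h1 h2
      linarith [h1.1, h2.2]
    · intro x hx
      have := two_zpow_pos m
      rw [zp1]
      exact ⟨by linarith [hx.1], hx.2⟩
    · intro x hx
      have := two_zpow_pos m
      rw [zp1]
      exact ⟨by linarith [hx.1], by linarith [hx.2]⟩

end Pool.Agent.Q167.WV
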