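import Pool.Agent.Q167.WV.Frame

/-!
The upper frame bound and the transfer to the time domain.
-/

set_option autoImplicit false

open MeasureTheory Filter Topology Set
open scoped ComplexConjugate InnerProductSpace ENNReal FourierTransform
open Pool.Agent.Helper704 Pool.Agent.Helper704.RW

namespace Pool.Agent.Q167.WV

theorem count_le {b : ℝ} (hb : 0 < b) {n : ℕ} (hn : b⁻¹ ≤ 2 ^ n) {ξ : ℝ} (hξ : ξ ≠ 0) :
    ∑' j : ℤ, ‖((Om b).indicator 1 ((2 : ℝ) ^ (-j) * ξ) : ℂ)‖ₑ ^ 2 ≤ n := by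
  have h0 : ∀ j ∉ Finset.Ioc (sh ξ) (sh ξ + n), ‖((Om b).indicator 1 ((2 : ℝ) ^ (-j) * ξ) : ℂ)‖ₑ ^ 2 = 0 := by
    intro j hj
    rw [indicator_of_notMem]
    · simp
    · intro h
      apply hj
      have hL := two_zpow_pos j
      have h1 : b * 2 ^ j < |ξ| ∧ |ξ| < 2 ^ j := by
        rw [zpow_neg, inv_mul_eq_div] at h
        rcases h with h | h
        · have a1 := h.1
          have a2 := h.2
          rw [lt_div_iff₀ hL] at a1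
          rw [div_lt_iff₀ hL] at a2
          have : 0 < b * 2 ^ j := mul_pos hb hL
          rw [abs_of_neg (by linarith)]
          constructor <;> linarith
        · have a1 := h.1
          have a2 := h.2
          rw [lt_div_iff₀ hL] at a1
          rw [div_lt_iff₀ hL] at a2
          have : 0 < b * 2 ^ j := mul_pos hb hL
          rw [abs_of_pos (by linarith)]
          constructor <;> linarith
      have h2 := sh_le hξ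
      have h3 := lt_sh (x := ξ)
      rw [Finset.mem_Ioc]
      constructor
      · exact (zpow_lt_zpow_iff_right₀ (one_lt_two : (1 : ℝ) < 2)).1 (h2.trans_lt h1.2)
      · have h4 : (2 : ℝ) ^ j < 2 ^ (sh ξ + n + 1) := by
          have h5 : (2 : ℝ) ^ (sh ξ + n + 1) = 2 ^ n * 2 ^ (sh ξ + 1) := by
            rw [show sh ξ + n + 1 = (n : ℤ) + (sh ξ + 1) by ring, zpow_add₀ two_ne_zero, zpow_natCast]
          rw [h5]
          calc (2 : ℝ) ^ j = b⁻¹ * (b * 2 ^ j) := by field_simp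
            _ < b⁻¹ * 2 ^ (sh ξ + 1) := mul_lt_mul_of_pos_left (h1.1.trans h3) (by positivity)
            _ ≤ 2 ^ n * 2 ^ (sh ξ + 1) := mul_le_mul_of_nonneg_right hn (by positivity)
        have := (zpow_lt_zpow_iff_right₀ (one_lt_two : (1 : ℝ) < 2)).1 h4
        omega
  rw [tsum_eq_sum h0]
  refine (Finset.sum_le_card_nsmul _ _ 1 fun j _ => ?_).trans ?_
  · refine pow_le_one₀ zero_le ?_
    rw [← ofReal_norm]
    exact ENNReal.ofReal_le_one.2 (norm_ind_le _ _)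
  · rw [Int.card_Ioc, nsmul_eq_mul, mul_one]
    simp

theorem level_le {S : Set ℝ} (hS : MeasurableSet S) (j : ℤ) {g : ℝ → ℂ} (hg : Measurable g) :
    ∫⁻ ξ in Ioc 0 ((2 : ℝ) ^ j), ‖per S j g ξ‖ₑ ^ 2 ≤ 4 * ∫⁻ ξ, ‖cut S j g ξ‖ₑ ^ 2 := by
  have hc : Measurable (cut S j g) := (measurable_ind hS j).mul hg
  have hc2 : Measurable fun ξ => ‖cut S j g ξ‖ₑ ^ 2 := hc.enorm.pow_const 2
  have h1 : ∀ ξ, ‖per S j g ξ‖ₑ ^ 2 ≤ 2 * ‖cut S j g ξ‖ₑ ^ 2 + 2 * ‖cut S j g (ξ - 2 ^ j)‖ₑ ^ 2 := by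
    intro ξ
    have h := sq_add_le (cut S j g ξ) (cut S j g (ξ - 2 ^ j))
    have e2 : (2 : ℝ≥0∞) = ENNReal.ofReal 2 := by norm_num
    rw [per, ofReal_sq_norm, ofReal_sq_norm, ofReal_sq_norm, e2, ← ENNReal.ofReal_mul (by norm_num),
      ← ENNReal.ofReal_mul (by norm_num), ← ENNReal.ofReal_add (by positivity) (by positivity)]
    exact ENNReal.ofReal_le_ofReal h
  have h2 : ∫⁻ ξ, ‖cut S j g (ξ - 2 ^ j)‖ₑ ^ 2 = ∫⁻ ξ, ‖cut S j g ξ‖ₑ ^ 2 :=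
    lintegral_sub_right_eq_self (fun ξ => ‖cut S j g ξ‖ₑ ^ 2) _
  calc ∫⁻ ξ in Ioc 0 ((2 : ℝ) ^ j), ‖per S j g ξ‖ₑ ^ 2
      ≤ ∫⁻ ξ, ‖per S j g ξ‖ₑ ^ 2 := setLIntegral_le_lintegral _ _
    _ ≤ ∫⁻ ξ, (2 * ‖cut S j g ξ‖ₑ ^ 2 + 2 * ‖cut S j g (ξ - 2 ^ j)‖ₑ ^ 2) := lintegral_mono h1
    _ = 4 * ∫⁻ ξ, ‖cut S j g ξ‖ₑ ^ 2 := by
      rw [lintegral_add_left (f := fun ξ => 2 * ‖cut S j g ξ‖ₑ ^ 2) (hc2.const_mul 2),
        lintegral_const_mul 2 hc2, lintegral_const_mul' 2 _ (by norm_num), h2, ← add_mul]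
      norm_num

/-- the upper frame bound -/
theorem upper {b : ℝ} (hb : 0 < b) {n : ℕ} (hn : b⁻¹ ≤ 2 ^ n) {g : ℝ → ℂ} (hgm : Measurable g) :
    ∑' j : ℤ, ∫⁻ ξ in Ioc 0 ((2 : ℝ) ^ j), ‖per (Om b) j g ξ‖ₑ ^ 2 ≤ (4 * n) * ∫⁻ x, ‖g x‖ₑ ^ 2 := by
  have hS := measurableSet_Om b
  have hc2 : ∀ j, Measurable fun ξ => ‖cut (Om b) j g ξ‖ₑ ^ 2 :=
    fun j => ((measurable_ind hS j).mul hgm).enorm.pow_const 2
  calc ∑' j : ℤ, ∫⁻ ξ in Ioc 0 ((2 : ℝ) ^ j), ‖per (Om b) j g ξ‖ₑ ^ 2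
      ≤ ∑' j : ℤ, 4 * ∫⁻ ξ, ‖cut (Om b) j g ξ‖ₑ ^ 2 := ENNReal.tsum_le_tsum fun j => level_le hS j hgm
    _ = 4 * ∫⁻ ξ, ∑' j : ℤ, ‖cut (Om b) j g ξ‖ₑ ^ 2 := by
      rw [ENNReal.tsum_mul_left, lintegral_tsum fun j => (hc2 j).aemeasurable]
    _ ≤ 4 * ∫⁻ ξ, n * ‖g ξ‖ₑ ^ 2 := by
      gcongr 4 * ?_
      refine lintegral_mono_ae ?_
      have h0 : ∀ᵐ ξ : ℝ, ξ ≠ 0 := by
        filter_upwards [(countable_singleton (0 : ℝ)).ae_notMem volume] with x hx using hx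
      filter_upwards [h0] with ξ hξ
      simp_rw [cut, enorm_mul, mul_pow]
      rw [ENNReal.tsum_mul_right]
      gcongr
      exact count_le hb hn hξ
    _ = (4 * n) * ∫⁻ x, ‖g x‖ₑ ^ 2 := by
      rw [lintegral_const_mul' _ _ (ENNReal.natCast_ne_top n), mul_assoc]

theorem memLp_Om {b : ℝ} (hb : 0 < b) : MemLp ((Om b).indicator (1 : ℝ → ℂ)) 2 volume := by
  refine memLp_indicator_const 2 (measurableSet_Om b) 1 (Or.inr ?_)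
  exact ((measure_mono (Om_subset hb)).trans_lt (by simp [Real.volume_Ioo])).ne

/-- the sum of the squared coefficients -/
theorem frame_sum {b : ℝ} (hb : 0 < b) (ψ : HH)
    (hψ : (𝓕 ψ : HH) =ᵐ[volume] (Ioo (-1) (-b) ∪ Ioo b 1).indicator (1 : ℝ → ℂ)) (f : HH) :
    ∑' p : ℤ × ℤ, ‖⟪Ds p ψ, f⟫_ℂ‖ₑ ^ 2 =
      ∑' j : ℤ, ∫⁻ ξ in Ioc 0 ((2 : ℝ) ^ j), ‖per (Om b) j (𝓕 f : HH) ξ‖ₑ ^ 2 := by
  have hφ := memLp_Om hb
  have h1 : (𝓕 ψ : HH) = hφ.toLp _ := by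
    rw [← Lp.toLp_coeFn (𝓕 ψ) (Lp.memLp _)]
    exact MemLp.toLp_congr _ _ hψ
  have h2 : ∀ p, ⟪Ds p ψ, f⟫_ℂ = ∫ ξ, conj (fq p ((Om b).indicator 1) ξ) * (𝓕 f : HH) ξ := by
    intro p
    rw [← inner_Dh hφ p (𝓕 f), ← h1, ← fourier_Ds]
    exact (Lp.inner_fourier_eq (Ds p ψ) f).symm
  simp_rw [h2]
  rw [ENNReal.tsum_prod' (f := fun p : ℤ × ℤ => ‖∫ ξ, conj (fq p ((Om b).indicator 1) ξ) * (𝓕 f : HH) ξ‖ₑ ^ 2)]
  exact tsum_congr fun j => level (measurableSet_Om b) (Om_subset hb) j (Lp.memLp _)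

end Pool.Agent.Q167.WV
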